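import Pool.Agent.R104.CRank2

/-!
MP_47eac2_co, Q1: fewest edges of a graph with `c-rk G + c-rk Gᶜ = M(n)`.
-/

set_option autoImplicit false

namespace Pool.Agent.Results.MP_47eac2_co.FewestEdges

open Pool.Agent.R104.CRank Finset

/-- `M(n)`: the largest value of `c-rk G + c-rk Gᶜ` over all graphs `G` on `n` vertices. -/
noncomputable def M (n : ℕ) : ℕ := sSup {s | ∃ G : SimpleGraph (Fin n), crk G + crk Gᶜ = s}

/-- The smallest number of edges of a graph `G` on `n` vertices with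
`c-rk G + c-rk Gᶜ = M(n)`. -/
noncomputable def minEdges (n : ℕ) : ℕ :=
  sInf {e | ∃ G : SimpleGraph (Fin n), crk G + crk Gᶜ = M n ∧ G.edgeSet.ncard = e}

section few

theorem ch2 (a : ℕ) : a.choose 2 * 2 = a * (a - 1) := by
  rw [Nat.choose_two_right]
  exact Nat.div_mul_cancel (Nat.even_mul_pred_self a).two_dvd

theorem ch2_le {a b : ℕ} (h : a ≤ b) : a.choose 2 ≤ b.choose 2 := Nat.choose_le_choose 2 h

variable {n : ℕ}

theorem facts [NeZero n] (G : SimpleGraph (Fin n)) :
    crk G ≤ n ∧ crk Gᶜ ≤ n ∧ (crk G).choose 2 ≤ G.edgeSet.ncard ∧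
      (crk G).choose 2 + (crk Gᶜ).choose 2 ≤ n.choose 2 ∧
      G.edgeSet.ncard + (crk Gᶜ).choose 2 ≤ n.choose 2 := by
  classical
  obtain ⟨v, w, h⟩ := exists_tri G
  obtain ⟨a, b, h'⟩ := exists_tri Gᶜ
  have e1 := tri_le h
  have e2 := tri_le h'
  have e3 := tri_edges G h
  have e4 := tri_edges Gᶜ h'
  have e5 := edges_compl G
  rw [Fintype.card_fin] at e1 e2 e5
  have e6 : G.edgeSet.ncard = G.edgeFinset.card := by
    rw [← SimpleGraph.coe_edgeFinset, Set.ncard_coe_finset]
  refine ⟨e1, e2, by omega, by omega, by omega⟩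

theorem small_bound [NeZero n] (hn : n ≤ 3) (G : SimpleGraph (Fin n)) :
    crk G + crk Gᶜ ≤ n + 1 := by
  obtain ⟨h1, h2, h3, h4, h5⟩ := facts G
  have hn0 : n ≠ 0 := NeZero.ne n
  generalize crk G = k at *
  generalize crk Gᶜ = l at *
  by_contra hc
  push Not at hc
  have h6 : n = 2 ∨ n = 3 := by omega
  rcases h6 with rfl | rfl
  · have : k = 2 := by omega
    have : l = 2 := by omega
    subst k l
    revert h4; decide
  · have : (k = 3 ∧ l = 2) ∨ (k = 2 ∧ l = 3) ∨ (k = 3 ∧ l = 3) := by omega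
    rcases this with ⟨rfl, rfl⟩ | ⟨rfl, rfl⟩ | ⟨rfl, rfl⟩ <;> (revert h4; decide)

theorem few_bound [NeZero n] (G : SimpleGraph (Fin n)) (he : G.edgeSet.ncard ≤ 2) :
    crk G + crk Gᶜ ≤ n + 1 := by
  obtain ⟨h1, h2, h3, h4, h5⟩ := facts G
  have hn0 : n ≠ 0 := NeZero.ne n
  generalize crk G = k at *
  generalize crk Gᶜ = l at *
  by_contra hc
  push Not at hc
  have hk : k ≤ 2 := by
    by_contra hk
    have := ch2_le (show 3 ≤ k by omega)
    have h33 : Nat.choose 3 2 = 3 := by decide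
    omega
  have hk2 : k = 2 := by omega
  have hl : l = n := by omega
  subst hk2 hl
  have h22 : Nat.choose 2 2 = 1 := by decide
  omega

end few

section examples

theorem ex_bot (n : ℕ) [NeZero n] :
    n + 1 ≤ crk (⊥ : SimpleGraph (Fin n)) + crk (⊥ : SimpleGraph (Fin n))ᶜ := by
  have h1 : 1 ≤ crk (⊥ : SimpleGraph (Fin n)) := by
    apply le_crk (v := fun _ => 0) (w := fun _ => 0)
    exact ⟨fun i _ => by simp, fun i j hij hj => absurd hj (by omega)⟩
  have h2 : n ≤ crk (⊥ : SimpleGraph (Fin n))ᶜ := by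
    apply le_crk (v := fun i => Fin.ofNat n i) (w := fun i => Fin.ofNat n i)
    refine ⟨fun i _ => by simp, fun i j hij hj => ?_⟩
    rw [SimpleGraph.compl_adj]
    refine ⟨?_, by simp⟩
    intro he
    have := congrArg Fin.val he
    simp only [Fin.val_ofNat] at this
    rw [Nat.mod_eq_of_lt hj, Nat.mod_eq_of_lt (by omega : i < n)] at this
    omega
  omega

/-- the path on the vertices `0, 1, 2, 3`, plus isolated vertices -/
def P4 (n : ℕ) : SimpleGraph (Fin n) where
  Adj x y := (x.val + 1 = y.val ∧ y.val ≤ 3) ∨ (y.val + 1 = x.val ∧ x.val ≤ 3)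
  symm := ⟨fun x y h => h.symm⟩
  loopless := ⟨fun x h => by rcases h with h | h <;> omega⟩

theorem P4_adj (n : ℕ) (x y : Fin n) : (P4 n).Adj x y ↔
    (x.val + 1 = y.val ∧ y.val ≤ 3) ∨ (y.val + 1 = x.val ∧ x.val ≤ 3) := Iff.rfl

theorem P4_edges (n : ℕ) (hn : 4 ≤ n) : (P4 n).edgeSet.ncard = 3 := by
  have h : (P4 n).edgeSet = (({s(⟨0, by omega⟩, ⟨1, by omega⟩), s(⟨1, by omega⟩, ⟨2, by omega⟩),
      s(⟨2, by omega⟩, ⟨3, by omega⟩)} : Finset (Sym2 (Fin n))) : Set (Sym2 (Fin n))) := by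
    ext e
    induction e using Sym2.ind with
    | _ x y =>
      rw [SimpleGraph.mem_edgeSet, P4_adj]
      simp only [coe_insert, coe_singleton, Set.mem_insert_iff, Set.mem_singleton_iff,
        Sym2.eq_iff, Fin.ext_iff]
      omega
  rw [h, Set.ncard_coe_finset]
  rw [card_insert_of_notMem, card_insert_of_notMem, card_singleton]
  · simp only [mem_singleton, Sym2.eq_iff, Fin.ext_iff]
    omega
  · simp only [mem_insert, mem_singleton, Sym2.eq_iff, Fin.ext_iff]
    omega

theorem ex_P4 (n : ℕ) [NeZero n] (hn : 4 ≤ n) :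
    n + 2 ≤ crk (P4 n) + crk (P4 n)ᶜ := by
  have hv : ∀ i, i < n → (Fin.ofNat n i).val = i := fun i hi => by
    rw [Fin.val_ofNat, Nat.mod_eq_of_lt hi]
  have h1 : 3 ≤ crk (P4 n) := by
    apply le_crk (v := fun i => Fin.ofNat n (if i = 0 then 1 else if i = 1 then 3 else 2))
      (w := fun i => Fin.ofNat n (if i = 0 then 1 else if i = 1 then 0 else 2))
    constructor
    · intro i hi
      have : i = 0 ∨ i = 1 ∨ i = 2 := by omega
      rcases this with rfl | rfl | rfl
      · rw [P4_adj]; simp only [if_true]; rw [hv 1 (by omega)]; omega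
      · rw [P4_adj]
        simp only [one_ne_zero, if_false, if_true]; rw [hv 3 (by omega), hv 0 (by omega)]; omega
      · rw [P4_adj]
        simp only [OfNat.ofNat_ne_zero, OfNat.ofNat_ne_one, if_false]
        rw [hv 2 (by omega)]; omega
    · intro i j hij hj
      have : (i = 0 ∧ j = 1) ∨ (i = 0 ∧ j = 2) ∨ (i = 1 ∧ j = 2) := by omega
      rcases this with ⟨rfl, rfl⟩ | ⟨rfl, rfl⟩ | ⟨rfl, rfl⟩
      · rw [P4_adj]
        simp only [one_ne_zero, if_false, if_true]; rw [hv 1 (by omega), hv 0 (by omega)]; omega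
      · rw [P4_adj]
        simp only [OfNat.ofNat_ne_zero, OfNat.ofNat_ne_one, if_false, if_true]
        rw [hv 1 (by omega), hv 2 (by omega)]; omega
      · rw [P4_adj]
        simp only [OfNat.ofNat_ne_zero, OfNat.ofNat_ne_one, one_ne_zero, if_false, if_true]
        rw [hv 3 (by omega), hv 2 (by omega)]; omega
  have h2 : n - 1 ≤ crk (P4 n)ᶜ := by
    apply le_crk (v := fun i => Fin.ofNat n (if i < 3 then i else i + 1))
      (w := fun i => Fin.ofNat n (i + 1))
    constructor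
    · intro i hi
      rw [SimpleGraph.compl_adj, P4_adj]
      beta_reduce
      rw [hv (i + 1) (by omega)]
      by_cases h3 : i < 3
      · rw [if_pos h3, hv i (by omega)]; omega
      · rw [if_neg h3]; simp
    · intro i j hij hj
      rw [SimpleGraph.compl_adj, P4_adj, ne_eq, Fin.ext_iff]
      beta_reduce
      rw [hv (j + 1) (by omega)]
      by_cases h3 : i < 3
      · rw [if_pos h3, hv i (by omega)]; omega
      · rw [if_neg h3, hv (i + 1) (by omega)]; omega
  omega

end examples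

theorem M_eq {n m : ℕ} (h1 : ∀ G : SimpleGraph (Fin n), crk G + crk Gᶜ ≤ m)
    (h2 : ∃ G : SimpleGraph (Fin n), m ≤ crk G + crk Gᶜ) : M n = m := by
  apply le_antisymm
  · apply csSup_le
    · exact ⟨_, ⊥, rfl⟩
    · rintro s ⟨G, rfl⟩; exact h1 G
  · obtain ⟨G, hG⟩ := h2
    refine le_trans hG (le_csSup ?_ ⟨G, rfl⟩)
    exact ⟨m, by rintro s ⟨G, rfl⟩; exact h1 G⟩

/-- **Theorem.** For `1 ≤ n ≤ 3`, `M(n) = n + 1` and it is attained by a graph with no edges.
For `n ≥ 4`, `M(n) = n + 2` and the smallest number of edges of a graph on `n` vertices with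
`c-rk G + c-rk Gᶜ = M(n)` is `3`. -/
theorem result :
    (∀ n, 1 ≤ n → n ≤ 3 → M n = n + 1 ∧ minEdges n = 0) ∧
      ∀ n, 4 ≤ n → M n = n + 2 ∧ minEdges n = 3 := by
  constructor
  · intro n hn1 hn3
    have : NeZero n := ⟨by omega⟩
    have hM : M n = n + 1 := M_eq (small_bound hn3) ⟨⊥, ex_bot n⟩
    refine ⟨hM, ?_⟩
    apply Nat.eq_zero_of_le_zero
    apply Nat.sInf_le
    refine ⟨⊥, ?_, by simp⟩
    rw [hM]
    exact le_antisymm (small_bound hn3 _) (ex_bot n)
  · intro n hn
    have : NeZero n := ⟨by omega⟩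
    have hub : ∀ G : SimpleGraph (Fin n), crk G + crk Gᶜ ≤ n + 2 := fun G => by
      have := crk_add_le G
      rwa [Fintype.card_fin] at this
    have hM : M n = n + 2 := M_eq hub ⟨P4 n, ex_P4 n hn⟩
    refine ⟨hM, ?_⟩
    apply le_antisymm
    · apply Nat.sInf_le
      refine ⟨P4 n, ?_, P4_edges n hn⟩
      rw [hM]
      exact le_antisymm (hub _) (ex_P4 n hn)
    · apply le_csInf
      · exact ⟨3, P4 n, by rw [hM]; exact le_antisymm (hub _) (ex_P4 n hn), P4_edges n hn⟩
      · rintro e ⟨G, hG, rfl⟩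
        by_contra hc
        have := few_bound G (by omega)
        rw [hM] at hG
        omega

end Pool.Agent.Results.MP_47eac2_co.FewestEdges
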